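import Pool.Agent.Helper19.TGX.Goals

/-!
# Project TGX (MP_a41896_nt), packet KIL0: derivations kill the normalised formula
-/

set_option autoImplicit false

open Polynomial

namespace Pool.Agent.Helper94.TGX.KIL0

open WeierstrassCurve
open Pool.Agent.Helper29.BL Pool.Agent.Helper42.SG
open Pool.Agent.Helper60.T3 (WL zd IP)
open Pool.Agent.Helper19.TGX

noncomputable section

/-- The algebraic identity. -/
theorem alg {R : Type} [CommRing R] [IsDomain R]
    (A B A1 B1 Ad Bd A1d B1d w w1 wd b b1 c2 c4 c6 a da H H1 Hd n n1 : R)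
    (hw : w = A1 * B - A * B1)
    (hwd : wd = A1d * B + A1 * Bd - (Ad * B1 + A * B1d))
    (hH : H = 4 * A ^ 3 + c2 * A ^ 2 * B + 2 * c4 * A * B ^ 2 + c6 * B ^ 3)
    (hH1 : H1 = (12 * A ^ 2 + 2 * c2 * A * B + 2 * c4 * B ^ 2) * A1 +
      (c2 * A ^ 2 + 4 * c4 * A * B + 3 * c6 * B ^ 2) * B1)
    (hHd : Hd = (12 * A ^ 2 + 2 * c2 * A * B + 2 * c4 * B ^ 2) * Ad +
      (c2 * A ^ 2 + 4 * c4 * A * B + 3 * c6 * B ^ 2) * Bd)
    (hn : n = Ad * B - A * Bd)
    (hn1 : n1 = A1d * B + Ad * B1 - (A1 * Bd + A * B1d))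
    (hI : a ^ 2 * B * H = w ^ 2 * b)
    (hI1 : a ^ 2 * (B1 * H + B * H1) = 2 * w * w1 * b + w ^ 2 * b1)
    (hId : 2 * a * da * B * H + a ^ 2 * (Bd * H + B * Hd) = 2 * w * wd * b)
    (h0 : w ≠ 0) :
    2 * ((a * n1) * (w * b) - (a * n) * (w1 * b + w * b1)) * b + (a * n) * (w * b) * b1 =
      2 * da * (w * b) ^ 2 := by
  refine mul_left_cancel₀ h0 ?_
  have key : (2 * (Ad * B1 - A1 * Bd) * w) * (w * b) * 2 * (a * b) * 0 = 0 := by ring
  clear key
  have e1 : B * H1 = (12 * A ^ 2 + 2 * c2 * A * B + 2 * c4 * B ^ 2) * w + 3 * H * B1 := by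
    rw [hH1, hH, hw]; ring
  have e2 : B * Hd = (12 * A ^ 2 + 2 * c2 * A * B + 2 * c4 * B ^ 2) * n + 3 * H * Bd := by
    rw [hHd, hH, hn]; ring
  have e3 : wd = n1 - 2 * Ad * B1 + 2 * A1 * Bd := by
    rw [hwd, hn1]; ring
  have e4 : (Ad * B1 - A1 * Bd) * B - n * B1 + w * Bd = 0 := by
    rw [hn, hw]; ring
  rw [e1] at hI1
  rw [e2, e3] at hId
  linear_combination (2 * da * b * w - 4 * a * b * (Ad * B1 - A1 * Bd)) * hI +
    a * b * n * hI1 - a * b * w * hId + 4 * a ^ 3 * b * H * e4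

theorem t (h1 : DCF) (h2 : RHO) (h3 : BPF) : KIL0 := by
  intro K Ω _ _ _ _ _ W W' hW hW' A B a hAB hB hw0 ha hI δ
  haveI : CharZero Ω := charZero_of_injective_algebraMap (algebraMap K Ω).injective
  obtain ⟨hcoef, hadd, hmul, hmap, hder, hC⟩ := h1 K Ω δ
  haveI := hW
  have hE : (WL Ω W).IsElliptic := by
    unfold WL
    infer_instance
  obtain ⟨hdeg, hlc, -, hsq, -, -, -⟩ := h3 Ω (WL Ω W) hE
  have h0 : dcf δ (0 : Polynomial Ω) = 0 := by
    have := hmap 0
    rwa [Polynomial.map_zero] at this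
  have hsub : ∀ p q : Polynomial Ω, dcf δ (p - q) = dcf δ p - dcf δ q := by
    intro p q
    have := hadd (p - q) q
    rw [sub_add_cancel] at this
    rw [this, add_sub_cancel_right]
  have hc : ∀ z : K, dcf δ (C (algebraMap K Ω z)) = 0 := by
    intro z
    have := hmap (C z)
    rwa [Polynomial.map_C] at this
  have h4 : dcf δ (4 : Polynomial Ω) = 0 := by
    have := hmap 4
    rwa [Polynomial.map_ofNat] at this
  have h2' : dcf δ (2 : Polynomial Ω) = 0 := by
    have := hmap 2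
    rwa [Polynomial.map_ofNat] at this
  have hβd : dcf δ (bp (WL Ω W)) = 0 := by
    have hm : bp (WL Ω W) = (bp W).map (algebraMap K Ω) := by
      unfold bp WL
      simp only [map_b₂, map_b₄, map_b₆, Polynomial.map_add, Polynomial.map_mul,
        Polynomial.map_pow, Polynomial.map_X, Polynomial.map_C, Polynomial.map_ofNat]
    rw [hm]
    exact hmap _
  set β := bp (WL Ω W) with hβ
  obtain ⟨c2, hc2, hc2d, hc2'⟩ : ∃ c : Polynomial Ω, c = C (WL Ω W').b₂ ∧ dcf δ c = 0 ∧
      derivative c = 0 :=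
    ⟨_, rfl, by unfold WL; rw [map_b₂]; exact hc _, derivative_C⟩
  obtain ⟨c4, hc4, hc4d, hc4'⟩ : ∃ c : Polynomial Ω, c = C (WL Ω W').b₄ ∧ dcf δ c = 0 ∧
      derivative c = 0 :=
    ⟨_, rfl, by unfold WL; rw [map_b₄]; exact hc _, derivative_C⟩
  obtain ⟨c6, hc6, hc6d, hc6'⟩ : ∃ c : Polynomial Ω, c = C (WL Ω W').b₆ ∧ dcf δ c = 0 ∧
      derivative c = 0 :=
    ⟨_, rfl, by unfold WL; rw [map_b₆]; exact hc _, derivative_C⟩
  have hH : hf (WL Ω W') A B = 4 * A ^ 3 + c2 * A ^ 2 * B + 2 * c4 * A * B ^ 2 + c6 * B ^ 3 := by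
    rw [hc2, hc4, hc6]
    rfl
  clear_value β
  set H := hf (WL Ω W') A B with hHdef
  clear_value H
  have hpow2 : ∀ p : Polynomial Ω, dcf δ (p ^ 2) = 2 * p * dcf δ p := by
    intro p
    rw [pow_two, hmul]
    ring
  have hpow3 : ∀ p : Polynomial Ω, dcf δ (p ^ 3) = 3 * p ^ 2 * dcf δ p := by
    intro p
    rw [pow_succ, hmul, hpow2]
    ring
  have hH1 : derivative H = (12 * A ^ 2 + 2 * c2 * A * B + 2 * c4 * B ^ 2) * derivative A +
      (c2 * A ^ 2 + 4 * c4 * A * B + 3 * c6 * B ^ 2) * derivative B := by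
    rw [hH]
    simp only [derivative_add, derivative_mul, derivative_pow, hc2', hc4', hc6',
      derivative_ofNat, Nat.cast_ofNat, map_ofNat, Nat.add_one_sub_one, pow_one]
    ring
  have hHd : dcf δ H = (12 * A ^ 2 + 2 * c2 * A * B + 2 * c4 * B ^ 2) * dcf δ A +
      (c2 * A ^ 2 + 4 * c4 * A * B + 3 * c6 * B ^ 2) * dcf δ B := by
    rw [hH]
    simp only [hadd, hmul, hpow2, hpow3, hc2d, hc4d, hc6d, h4, h2']
    ring
  set w := wr A B with hwdef
  have hw : w = derivative A * B - A * derivative B := rfl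
  have hwd : dcf δ w = dcf δ (derivative A) * B + derivative A * dcf δ B -
      (dcf δ A * derivative B + A * dcf δ (derivative B)) := by
    rw [hw, hsub, hmul, hmul]
  set n := dcf δ A * B - A * dcf δ B with hn
  have hn1 : derivative n = dcf δ (derivative A) * B + dcf δ A * derivative B -
      (derivative A * dcf δ B + A * dcf δ (derivative B)) := by
    rw [hn, derivative_sub, derivative_mul, derivative_mul, hder, hder]
  have hI0 : (C a) ^ 2 * B * H = w ^ 2 * β := by
    rw [← C_pow]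
    exact hI
  have hI1 : (C a) ^ 2 * (derivative B * H + B * derivative H) =
      2 * w * derivative w * β + w ^ 2 * derivative β := by
    have := congrArg derivative hI0
    rw [derivative_mul, derivative_mul, derivative_mul] at this
    simp only [derivative_pow, derivative_C, Nat.cast_ofNat, map_ofNat, Nat.add_one_sub_one,
      pow_one] at this
    linear_combination this
  have hId : 2 * C a * C (δ a) * B * H + (C a) ^ 2 * (dcf δ B * H + B * dcf δ H) =
      2 * w * dcf δ w * β := by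
    have := congrArg (dcf δ) hI0
    rw [hmul, hmul, hmul, hpow2, hpow2, hβd, hC] at this
    linear_combination this
  have key := alg A B (derivative A) (derivative B) (dcf δ A) (dcf δ B) (dcf δ (derivative A))
    (dcf δ (derivative B)) w (derivative w) (dcf δ w) β (derivative β) c2 c4 c6 (C a) (C (δ a))
    H (derivative H) (dcf δ H) n (derivative n) hw hwd hH hH1 hHd hn hn1 hI0 hI1 hId hw0
  have hβ0 : β ≠ 0 := by
    intro h
    rw [h] at hdeg
    simp at hdeg
  have hN : C a * n = 0 := by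
    refine h2 Ω β (C a * n) (w * β) (2 * δ a) hdeg hsq (mul_ne_zero hw0 hβ0) ?_
    have e1 : wr (C a * n) (w * β) = (C a * derivative n) * (w * β) -
        (C a * n) * (derivative w * β + w * derivative β) := by
      unfold wr
      rw [derivative_mul, derivative_mul, derivative_C]
      ring
    rw [e1, key, C_mul]
    simp only [map_ofNat]
  have hn0 : n = 0 := by
    rcases mul_eq_zero.1 hN with h | h
    · exact absurd (C_eq_zero.1 h) ha
    · exact h
  have hn2 : dcf δ A * B = A * dcf δ B := sub_eq_zero.1 (hn ▸ hn0)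
  have hdvd : B ∣ dcf δ B := by
    refine hAB.symm.dvd_of_dvd_mul_left ?_
    exact ⟨dcf δ A, by rw [← hn2]; ring⟩
  have hlt : (dcf δ B).degree < B.degree := by
    rw [degree_eq_natDegree hB.ne_zero, degree_lt_iff_coeff_zero]
    intro m hm
    rw [hcoef]
    rcases hm.eq_or_lt with h | h
    · rw [← h, hB.coeff_natDegree]
      exact δ.map_one_eq_zero
    · rw [coeff_eq_zero_of_natDegree_lt h, map_zero]
  have hB0 : dcf δ B = 0 := eq_zero_of_dvd_of_degree_lt hdvd hlt
  have hA0 : dcf δ A = 0 := by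
    rw [hB0, mul_zero] at hn2
    exact (mul_eq_zero.1 hn2).resolve_right hB.ne_zero
  intro i
  rw [← hcoef, ← hcoef, hA0, hB0]
  exact ⟨coeff_zero i, coeff_zero i⟩

end

end Pool.Agent.Helper94.TGX.KIL0
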